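import Pool.Agent.Lib.MP_0a5adf_nt.EXR.Base

/-!
# Project EXR, module EXC (helper19): first moment bound for large values of the 3x+1 map
-/

set_option autoImplicit false

namespace Pool.Agent.Lib.MP_0a5adf_nt.EXR.H19

open Finset Pool.Agent.Lib.MP_0a5adf_nt.EXP

theorem sum_double (g : ℤ → ℤ) (M : ℕ) :
    ∑ y ∈ Finset.Ico (-(2 * (M : ℤ))) (2 * M), g y =
      ∑ z ∈ Finset.Ico (-(M : ℤ)) M, (g (2 * z) + g (2 * z + 1)) := by
  induction M with
  | zero => simp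
  | succ M ih =>
    have h1 : Finset.Ico (-(2 * ((M + 1 : ℕ) : ℤ))) (2 * ((M + 1 : ℕ) : ℤ)) =
        insert (-(2 * (M : ℤ)) - 2) (insert (-(2 * (M : ℤ)) - 1) (insert (2 * (M : ℤ))
          (insert (2 * (M : ℤ) + 1) (Finset.Ico (-(2 * (M : ℤ))) (2 * M))))) := by
      ext y
      simp only [Finset.mem_Ico, Finset.mem_insert]
      push_cast
      omega
    have h2 : Finset.Ico (-((M + 1 : ℕ) : ℤ)) ((M + 1 : ℕ) : ℤ) =
        insert (-(M : ℤ) - 1) (insert (M : ℤ) (Finset.Ico (-(M : ℤ)) M)) := by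
      ext y
      simp only [Finset.mem_Ico, Finset.mem_insert]
      push_cast
      omega
    rw [h1, h2, Finset.sum_insert, Finset.sum_insert, Finset.sum_insert, Finset.sum_insert,
      Finset.sum_insert, Finset.sum_insert, ih]
    · have e1 : 2 * (-(M : ℤ) - 1) = -(2 * (M : ℤ)) - 2 := by ring
      have e2 : -(2 * (M : ℤ)) - 2 + 1 = -(2 * (M : ℤ)) - 1 := by ring
      rw [e1, e2]
      ring
    all_goals
      simp only [Finset.mem_Ico, Finset.mem_insert]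
      omega

theorem moment (k : ℕ) : ∀ (j a : ℕ) (b : ℤ), k ≤ j → a % 2 = 1 →
    ∑ y ∈ Finset.Ico (-((2 : ℤ) ^ j)) (2 ^ j), |T^[k] (a * y + b)| ≤
      2 ^ (j + 1) * (a * 2 ^ j * (1 + k) + |b|) := by
  induction k with
  | zero =>
    intro j a b _ _
    have h1 : ∀ y ∈ Finset.Ico (-((2 : ℤ) ^ j)) (2 ^ j), |T^[0] (a * y + b)| ≤ a * 2 ^ j + |b| := by
      intro y hy
      rw [Finset.mem_Ico] at hy
      have h2 : |y| ≤ 2 ^ j := abs_le.2 ⟨hy.1, hy.2.le⟩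
      calc |T^[0] (a * y + b)| = |a * y + b| := rfl
        _ ≤ |a * y| + |b| := abs_add_le _ _
        _ ≤ a * 2 ^ j + |b| := by
          rw [abs_mul, Nat.abs_cast]
          have : (a : ℤ) * |y| ≤ a * 2 ^ j := mul_le_mul_of_nonneg_left h2 (by positivity)
          linarith
    calc _ ≤ ∑ y ∈ Finset.Ico (-((2 : ℤ) ^ j)) (2 ^ j), ((a : ℤ) * 2 ^ j + |b|) := Finset.sum_le_sum h1
      _ = 2 ^ (j + 1) * (a * 2 ^ j * (1 + (0 : ℕ)) + |b|) := by
        rw [Finset.sum_const, Int.card_Ico, nsmul_eq_mul]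
        have h3 : (0 : ℤ) ≤ 2 ^ j - -2 ^ j := by
          have : (0 : ℤ) < 2 ^ j := by positivity
          linarith
        have h4 : (((2 : ℤ) ^ j - -2 ^ j).toNat : ℤ) = 2 ^ j - -2 ^ j := Int.toNat_of_nonneg h3
        rw [h4]
        push_cast
        ring
  | succ k ih =>
    intro j a b hkj ha
    obtain ⟨j, rfl⟩ : ∃ j', j = j' + 1 := ⟨j - 1, by omega⟩
    have hd := sum_double (fun y => |T^[k + 1] (a * y + b)|) (2 ^ j)
    have e0 : (2 : ℤ) ^ (j + 1) = 2 * ((2 ^ j : ℕ) : ℤ) := by push_cast; ring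
    rw [e0, hd]
    have e1 : (((2 ^ j : ℕ) : ℤ)) = 2 ^ j := by push_cast; rfl
    rw [e1, Finset.sum_add_distrib]
    have hpos : (1 : ℤ) ≤ 2 ^ j := one_le_pow₀ (by norm_num)
    have ha1 : (1 : ℤ) ≤ a := by
      have : 1 ≤ a := by omega
      exact_mod_cast this
    have haz : ((a : ℤ)) % 2 = 1 := by omega
    have ha3 : (3 * a) % 2 = 1 := by omega
    have hfin : ∀ b1 b2 : ℤ, |b1| + |b2| ≤ 2 * a + 2 * |b| →
        2 ^ (j + 1) * ((a : ℤ) * 2 ^ j * (1 + k) + |b1|) +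
          2 ^ (j + 1) * (((3 * a : ℕ) : ℤ) * 2 ^ j * (1 + k) + |b2|) ≤
        2 ^ (j + 1 + 1) * (a * (2 * 2 ^ j) * (1 + ((k + 1 : ℕ) : ℤ)) + |b|) := by
      intro b1 b2 hb
      have h5 : (0 : ℤ) < 2 ^ (j + 1) := by positivity
      have h6 : 2 ^ (j + 1 + 1) * ((a : ℤ) * (2 * 2 ^ j) * (1 + ((k + 1 : ℕ) : ℤ)) + |b|) -
          (2 ^ (j + 1) * ((a : ℤ) * 2 ^ j * (1 + k) + |b1|) +
          2 ^ (j + 1) * (((3 * a : ℕ) : ℤ) * 2 ^ j * (1 + k) + |b2|)) =
          2 ^ (j + 1) * (4 * a * 2 ^ j + 2 * |b| - |b1| - |b2|) := by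
        push_cast
        ring
      have h7 : (0 : ℤ) ≤ 4 * a * 2 ^ j + 2 * |b| - |b1| - |b2| := by
        have : 2 * (a : ℤ) ≤ 4 * a * 2 ^ j := by nlinarith
        linarith
      have h8 := mul_nonneg h5.le h7
      linarith
    by_cases hb : b % 2 = 0
    · have c1 : ∀ z : ℤ, |T^[k + 1] (a * (2 * z) + b)| = |T^[k] (a * z + b / 2)| := by
        intro z
        rw [Function.iterate_succ_apply]
        congr 2
        unfold T
        have h1 : ((a : ℤ) * (2 * z) + b) = 2 * (a * z) + b := by ring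
        rw [h1, if_pos (by omega)]
        omega
      have c2 : ∀ z : ℤ, |T^[k + 1] (a * (2 * z + 1) + b)| =
          |T^[k] (((3 * a : ℕ) : ℤ) * z + (3 * (a + b) + 1) / 2)| := by
        intro z
        rw [Function.iterate_succ_apply]
        congr 2
        unfold T
        have h1 : ((a : ℤ) * (2 * z + 1) + b) = 2 * (a * z) + a + b := by ring
        have h2 : (((3 * a : ℕ) : ℤ) * z) = 3 * (a * z) := by push_cast; ring
        rw [h1, h2, if_neg (by omega)]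
        omega
      rw [Finset.sum_congr rfl fun z _ => c1 z, Finset.sum_congr rfl fun z _ => c2 z]
      refine (add_le_add (ih j a (b / 2) (by omega) ha)
        (ih j (3 * a) ((3 * (a + b) + 1) / 2) (by omega) ha3)).trans (hfin _ _ ?_)
      rcases abs_cases b with ⟨h1, h2⟩ | ⟨h1, h2⟩ <;>
      rcases abs_cases (b / 2) with ⟨h3, h4⟩ | ⟨h3, h4⟩ <;>
      rcases abs_cases ((3 * (a + b) + 1) / 2) with ⟨h5, h6⟩ | ⟨h5, h6⟩ <;>
      rw [h1, h3, h5] <;> omega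
    · have c1 : ∀ z : ℤ, |T^[k + 1] (a * (2 * z) + b)| =
          |T^[k] (((3 * a : ℕ) : ℤ) * z + (3 * b + 1) / 2)| := by
        intro z
        rw [Function.iterate_succ_apply]
        congr 2
        unfold T
        have h1 : ((a : ℤ) * (2 * z) + b) = 2 * (a * z) + b := by ring
        have h2 : (((3 * a : ℕ) : ℤ) * z) = 3 * (a * z) := by push_cast; ring
        rw [h1, h2, if_neg (by omega)]
        omega
      have c2 : ∀ z : ℤ, |T^[k + 1] (a * (2 * z + 1) + b)| =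
          |T^[k] (a * z + (a + b) / 2)| := by
        intro z
        rw [Function.iterate_succ_apply]
        congr 2
        unfold T
        have h1 : ((a : ℤ) * (2 * z + 1) + b) = 2 * (a * z) + a + b := by ring
        rw [h1, if_pos (by omega)]
        omega
      rw [Finset.sum_congr rfl fun z _ => c1 z, Finset.sum_congr rfl fun z _ => c2 z, add_comm]
      refine (add_le_add (ih j a ((a + b) / 2) (by omega) ha)
        (ih j (3 * a) ((3 * b + 1) / 2) (by omega) ha3)).trans (hfin _ _ ?_)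
      rcases abs_cases b with ⟨h1, h2⟩ | ⟨h1, h2⟩ <;>
      rcases abs_cases ((a + b) / 2) with ⟨h3, h4⟩ | ⟨h3, h4⟩ <;>
      rcases abs_cases ((3 * b + 1) / 2) with ⟨h5, h6⟩ | ⟨h5, h6⟩ <;>
      rw [h1, h3, h5] <;> omega

theorem exc : ExcStatement := by
  classical
  refine ⟨8, fun N Y hY => ?_⟩
  set I : Finset ℤ := Finset.Ico (-((2 : ℤ) ^ (N + 1))) (2 ^ (N + 1)) with hI
  set A : ℕ → Finset ℤ := fun k => I.filter (fun x => Y ≤ |((T^[k] x : ℤ) : ℝ)|) with hA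
  have h1 : {x : ℤ | |x| ≤ 2 ^ N ∧ ∃ k ≤ N, Y ≤ |((T^[k] x : ℤ) : ℝ)|} ⊆
      (((Finset.range (N + 1)).biUnion A : Finset ℤ) : Set ℤ) := by
    rintro x ⟨hx, k, hk, hY2⟩
    rw [Finset.mem_coe, Finset.mem_biUnion]
    refine ⟨k, Finset.mem_range.2 (by omega), Finset.mem_filter.2 ⟨?_, hY2⟩⟩
    rw [hI, Finset.mem_Ico]
    have h2 := abs_le.1 hx
    have h3 : (0 : ℤ) < 2 ^ N := by positivity
    rw [pow_succ]
    constructor
    · linarith [h2.1]
    · linarith [h2.2]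
  have h2 : ({x : ℤ | |x| ≤ 2 ^ N ∧ ∃ k ≤ N, Y ≤ |((T^[k] x : ℤ) : ℝ)|}.ncard : ℝ) ≤
      ∑ k ∈ Finset.range (N + 1), ((A k).card : ℝ) := by
    have h3 := Set.ncard_le_ncard h1 (Finset.finite_toSet _)
    rw [Set.ncard_coe_finset] at h3
    have h4 := Finset.card_biUnion_le (s := Finset.range (N + 1)) (t := A)
    have h5 : ({x : ℤ | |x| ≤ 2 ^ N ∧ ∃ k ≤ N, Y ≤ |((T^[k] x : ℤ) : ℝ)|}.ncard) ≤
      ∑ k ∈ Finset.range (N + 1), (A k).card := h3.trans h4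
    exact_mod_cast h5
  have h3 : ∀ k ∈ Finset.range (N + 1), ((A k).card : ℝ) * Y ≤ 8 * (N + 1) * 4 ^ N := by
    intro k hk
    rw [Finset.mem_range] at hk
    have h4 : ((A k).card : ℝ) * Y ≤ ∑ x ∈ A k, |((T^[k] x : ℤ) : ℝ)| := by
      rw [← nsmul_eq_mul, ← Finset.sum_const]
      exact Finset.sum_le_sum fun x hx => (Finset.mem_filter.1 hx).2
    have h5 : ∑ x ∈ A k, |((T^[k] x : ℤ) : ℝ)| ≤ ∑ x ∈ I, |((T^[k] x : ℤ) : ℝ)| :=
      Finset.sum_le_sum_of_subset_of_nonneg (Finset.filter_subset _ _) fun _ _ _ => abs_nonneg _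
    have h6 := moment k (N + 1) 1 0 (by omega) (by norm_num)
    have h7 : ∑ x ∈ I, |((T^[k] x : ℤ) : ℝ)| ≤ 2 ^ (N + 1 + 1) * (2 ^ (N + 1) * (1 + (k : ℝ))) := by
      have h8 : ∑ x ∈ I, |T^[k] x| ≤ 2 ^ (N + 1 + 1) * (2 ^ (N + 1) * (1 + (k : ℤ))) := by
        simpa using h6
      exact_mod_cast h8
    have h9 : (k : ℝ) ≤ N := by
      have : k ≤ N := by omega
      exact_mod_cast this
    have h10 : (2 : ℝ) ^ (N + 1 + 1) * (2 ^ (N + 1) * (1 + (k : ℝ))) ≤ 8 * (N + 1) * 4 ^ N := by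
      have e4 : (4 : ℝ) ^ N = 2 ^ N * 2 ^ N := by
        rw [← mul_pow]; norm_num
      have e5 : (2 : ℝ) ^ (N + 1 + 1) * (2 ^ (N + 1) * (1 + (k : ℝ))) = 8 * (1 + k) * 4 ^ N := by
        rw [e4]; ring
      rw [e5]
      have : (0 : ℝ) < 4 ^ N := by positivity
      nlinarith
    linarith
  calc ({x : ℤ | |x| ≤ 2 ^ N ∧ ∃ k ≤ N, Y ≤ |((T^[k] x : ℤ) : ℝ)|}.ncard : ℝ) * Y
      ≤ (∑ k ∈ Finset.range (N + 1), ((A k).card : ℝ)) * Y := mul_le_mul_of_nonneg_right h2 hY.le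
    _ = ∑ k ∈ Finset.range (N + 1), ((A k).card : ℝ) * Y := Finset.sum_mul _ _ _
    _ ≤ ∑ k ∈ Finset.range (N + 1), 8 * ((N : ℝ) + 1) * 4 ^ N := Finset.sum_le_sum h3
    _ = 8 * (N + 1) ^ 2 * 4 ^ N := by
      rw [Finset.sum_const, Finset.card_range, nsmul_eq_mul]
      push_cast
      ring

end Pool.Agent.Lib.MP_0a5adf_nt.EXR.H19
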